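import Pool.Agent.X237.PI.Pencil
import Pool.Agent.X237.IV.Prog

/-!
# Asymptotic consequences
-/

set_option autoImplicit false

namespace Pool.Agent.X237.PI

open MvPolynomial Pool.Agent.H515R2.MMR Pool.Agent.H53R3 Pool.Agent.X237.IV

/-- Bounds for matrix multiplication of a linear fraction of the size bound `ω`. -/
theorem omega_le_of_bound {a b : ℕ} (ha : 0 < a) {τ : ℝ} (H : ∀ N : ℕ, ∃ n : ℕ, N ≤ n ∧
    ∃ L : ℕ, (∀ q : ℕ, a * q ≤ n → HasRank q (b * L)) ∧ (L : ℝ) ≤ (n : ℝ) ^ τ) : omega ≤ τ := by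
  by_contra hcon
  push Not at hcon
  have t := (tendsto_rpow_atTop (y := omega - τ) (by linarith)).comp
    (tendsto_natCast_atTop_atTop (R := ℝ))
  obtain ⟨N, hN⟩ := Filter.eventually_atTop.mp
    (t.eventually (Filter.eventually_gt_atTop (b * (2 * a : ℝ) ^ omega)))
  obtain ⟨n, hn, L, hL, hLe⟩ := H (max N (2 * a))
  have hnN : N ≤ n := (le_max_left _ _).trans hn
  have hn10 : 2 * a ≤ n := (le_max_right _ _).trans hn
  have hn0 : (0 : ℝ) < n := by
    have : 0 < n := by omega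
    exact_mod_cast this
  have h1 := hN n hnN
  simp only [Function.comp] at h1
  set q : ℕ := n / a with hq
  have hq1 : 1 ≤ q := by
    rw [hq]
    exact (Nat.one_le_div_iff ha).mpr (by omega)
  have h5 : a * q ≤ n := Nat.mul_div_le n a
  have hq10 : n ≤ 2 * a * q := by
    have := Nat.lt_div_mul_add ha (a := n)
    rw [← hq] at this
    nlinarith
  have h2 := hasRank_omega hq1 (hL q h5)
  push_cast at h2
  have ha' : (0 : ℝ) < a := by exact_mod_cast ha
  have h3 : (n : ℝ) ^ omega ≤ (2 * a : ℝ) ^ omega * (q : ℝ) ^ omega := by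
    rw [← Real.mul_rpow (by positivity) (Nat.cast_nonneg q)]
    refine Real.rpow_le_rpow hn0.le ?_ omega_nonneg
    exact_mod_cast hq10
  have h4 : (n : ℝ) ^ omega = (n : ℝ) ^ (omega - τ) * (n : ℝ) ^ τ := by
    rw [← Real.rpow_add hn0]; congr 1; ring
  have h5' : 0 < (n : ℝ) ^ τ := Real.rpow_pos_of_pos hn0 _
  have h6 : 0 < (2 * a : ℝ) ^ omega := Real.rpow_pos_of_pos (by positivity) _
  have h7 : (n : ℝ) ^ omega ≤ b * (2 * a : ℝ) ^ omega * (n : ℝ) ^ τ := by
    calc (n : ℝ) ^ omega ≤ (2 * a : ℝ) ^ omega * (q : ℝ) ^ omega := h3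
      _ ≤ (2 * a : ℝ) ^ omega * (b * (n : ℝ) ^ τ) := by
          refine mul_le_mul_of_nonneg_left ?_ h6.le
          have : (b : ℝ) * L ≤ b * (n : ℝ) ^ τ := mul_le_mul_of_nonneg_left hLe (Nat.cast_nonneg b)
          linarith
      _ = _ := by ring
  rw [h4] at h7
  have h8 := le_of_mul_le_mul_right h7 h5'
  linarith

end Pool.Agent.X237.PI
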