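import Pool.Agent.X237.PI.Surj
import Pool.Agent.X237.IV.Main

/-!
# Functions of two traces in two ways are constant
-/

set_option autoImplicit false

namespace Pool.Agent.X237.PI

open MvPolynomial Pool.Agent.H515R2.MMR Pool.Agent.H53R3 Pool.Agent.X237.IV

theorem diff_eval {σ : Type*} [Fintype σ] (P : MvPolynomial σ ℂ) (c : ℂ → σ → ℂ)
    (hc : ∀ t, Differentiable ℂ (fun z => c z t)) : Differentiable ℂ (fun z => eval (c z) P) :=
  fun z => (hasDerivAt_eval P c (fun t => deriv (fun z => c z t) z) z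
    (fun t => (hc t z).hasDerivAt)).differentiableAt

variable {n : ℕ}

/-- Exponentials of the coordinates. -/
noncomputable def ex (y : Fin n → ℂ) : Fin n → ℂ := fun k => Complex.exp (y k)

theorem diff_ex (y w : Fin n → ℂ) (k : Fin n) : Differentiable ℂ (fun z : ℂ => ex (y + z • w) k) := by
  unfold ex
  apply Differentiable.cexp
  simp only [Pi.add_apply, Pi.smul_apply, smul_eq_mul]
  exact (differentiable_id.mul_const _).const_add _

theorem diff_ex_neg (y w : Fin n → ℂ) (k : Fin n) :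
    Differentiable ℂ (fun z : ℂ => ex (-(y + z • w)) k) := by
  have : (fun z : ℂ => ex (-(y + z • w)) k) = fun z : ℂ => ex (-y + z • (-w)) k := by
    funext z
    congr 1
    rw [neg_add, smul_neg]
  rw [this]
  exact diff_ex _ _ _

theorem exists_ex {R : Pl n} (hR : R ≠ 0) : ∃ y, eval (ex y) R ≠ 0 := by
  obtain ⟨a, ha⟩ : ∃ a : Fin n → ℂ, eval a (R * ∏ i, X i) ≠ 0 := by
    by_contra hcon
    push Not at hcon
    have h0 : R * ∏ i, X i = 0 := MvPolynomial.funext fun a => by rw [hcon a, map_zero]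
    rcases mul_eq_zero.mp h0 with h | h
    · exact hR h
    · rw [Finset.prod_eq_zero_iff] at h
      obtain ⟨i, _, hi⟩ := h
      exact X_ne_zero i hi
  rw [map_mul, map_prod] at ha
  have h1 : ∀ i, a i ≠ 0 := by
    intro i h0
    apply right_ne_zero_of_mul ha
    exact Finset.prod_eq_zero (Finset.mem_univ i) (by rw [eval_X, h0])
  refine ⟨fun k => Complex.log (a k), ?_⟩
  have : ex (fun k => Complex.log (a k)) = a := by
    funext k
    exact Complex.exp_log (h1 k)
  rw [this]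
  exact left_ne_zero_of_mul ha

theorem exists_common {R₁ R₂ : Pl n} (h₁ : R₁ ≠ 0) (h₂ : R₂ ≠ 0) :
    ∃ y, eval (ex y) R₁ * eval (ex (-y)) R₂ ≠ 0 := by
  obtain ⟨y₁, hy₁⟩ := exists_ex h₁
  obtain ⟨y₂, hy₂⟩ := exists_ex h₂
  by_contra hcon
  push Not at hcon
  have hf := diff_eval R₁ (fun z => ex (y₁ + z • (-y₂ - y₁))) (fun t => diff_ex _ _ t)
  have hg := diff_eval R₂ (fun z => ex (-(y₁ + z • (-y₂ - y₁)))) (fun t => diff_ex_neg _ _ t)
  rcases entire_mul hf hg (fun z => hcon _) with h | h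
  · have := h 0
    rw [zero_smul, add_zero] at this
    exact hy₁ this
  · have := h 1
    rw [one_smul, add_sub_cancel, neg_neg] at this
    exact hy₂ this

theorem eq_zero_of_mul {R₁ R₂ : Pl n} (h₁ : R₁ ≠ 0) (h₂ : R₂ ≠ 0) (φ : (Fin n → ℂ) → ℂ)
    (hφ : ∀ y w, Differentiable ℂ (fun z : ℂ => φ (y + z • w)))
    (h : ∀ y, eval (ex y) R₁ * eval (ex (-y)) R₂ * φ y = 0) (y : Fin n → ℂ) : φ y = 0 := by
  obtain ⟨y', hy'⟩ := exists_common h₁ h₂
  have hf := diff_eval R₁ (fun z => ex (y' + z • (y - y'))) (fun t => diff_ex _ _ t)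
  have hg := diff_eval R₂ (fun z => ex (-(y' + z • (y - y')))) (fun t => diff_ex_neg _ _ t)
  rcases entire_mul (hf.mul hg) (hφ y' (y - y')) (fun z => h _) with h | h
  · have := h 0
    simp only [zero_smul, add_zero, Pi.mul_apply] at this
    exact absurd this hy'
  · have := h 1
    rwa [one_smul, add_sub_cancel] at this

theorem ofTraces_eq {P Q : Pl (n * n)} (hQ : Q ≠ 0) (h : OfTraces P Q) :
    ∃ U V : MvPolynomial (Fin 2) ℂ, bind₁ ![tr1 n, tr2 n] V ≠ 0 ∧
      P * bind₁ ![tr1 n, tr2 n] V = Q * bind₁ ![tr1 n, tr2 n] U := by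
  obtain ⟨U, V, hV, h⟩ := h
  refine ⟨U, V, hV, ?_⟩
  have hinj : Function.Injective (algebraMap (Pl (n * n)) (RF (n * n))) :=
    IsFractionRing.injective _ _
  have hne : ∀ R : Pl (n * n), R ≠ 0 → algebraMap (Pl (n * n)) (RF (n * n)) R ≠ 0 := by
    intro R hR h0
    exact hR (hinj (by rw [h0, map_zero]))
  unfold rat at h
  rw [div_eq_div_iff (hne _ hQ) (hne _ hV), ← map_mul, ← map_mul] at h
  exact (hinj h).trans (mul_comm _ _)

/-- A function of `tr X`, `tr (X ^ 2)` which is also a function of `tr X⁻¹`, `tr (X⁻¹ ^ 2)` is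
constant. -/
theorem const_of_inv (hn : 6 ≤ n) {P₁ Q₁ P₂ Q₂ : Pl (n * n)} (hQ₁ : Q₁ ≠ 0) (hQ₂ : Q₂ ≠ 0)
    (h₁ : OfTraces P₁ Q₁) (h₂ : OfTraces P₂ Q₂)
    (hinv : ∀ M N : Mt n, M * N = 1 →
      eval (pt M) P₁ * eval (pt N) Q₂ = eval (pt N) P₂ * eval (pt M) Q₁) :
    ∃ c : ℂ, P₁ = C c * Q₁ := by
  obtain ⟨U₁, V₁, hV₁, e₁⟩ := ofTraces_eq hQ₁ h₁
  obtain ⟨U₂, V₂, hV₂, e₂⟩ := ofTraces_eq hQ₂ h₂
  obtain ⟨g, h, l, hgh, hhg, hl⟩ := dense (mul_ne_zero hQ₁ hQ₂)
  rw [map_mul, ← eval_sub, ← eval_sub] at hl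
  have hR₁ : sub g h Q₁ ≠ 0 := fun h0 => left_ne_zero_of_mul hl (by rw [h0, map_zero])
  have hR₂ : sub g h Q₂ ≠ 0 := fun h0 => right_ne_zero_of_mul hl (by rw [h0, map_zero])
  -- the function of the exponents
  set sx : (Fin n → ℂ) → Fin 2 → ℂ := fun x => ![∑ t, x t, ∑ t, x t * x t] with hsx
  set φ : (Fin n → ℂ) → ℂ := fun y => eval (sx (ex y)) U₁ * eval (sx (ex (-y))) V₂ -
    eval (sx (ex (-y))) U₂ * eval (sx (ex y)) V₁ with hφ
  have hd1 : ∀ (U : MvPolynomial (Fin 2) ℂ) (y w : Fin n → ℂ),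
      Differentiable ℂ (fun z : ℂ => eval (sx (ex (y + z • w))) U) := by
    intro U y w
    refine diff_eval U _ fun t => ?_
    have hs1 : Differentiable ℂ (fun z : ℂ => ∑ t, ex (y + z • w) t) :=
      Differentiable.fun_sum fun t _ => diff_ex y w t
    have hs2 : Differentiable ℂ (fun z : ℂ => ∑ t, ex (y + z • w) t * ex (y + z • w) t) :=
      Differentiable.fun_sum fun t _ => (diff_ex y w t).mul (diff_ex y w t)
    fin_cases t
    · exact hs1
    · exact hs2
  have hd2 : ∀ (U : MvPolynomial (Fin 2) ℂ) (y w : Fin n → ℂ),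
      Differentiable ℂ (fun z : ℂ => eval (sx (ex (-(y + z • w)))) U) := by
    intro U y w
    have e : (fun z : ℂ => eval (sx (ex (-(y + z • w)))) U) =
        fun z : ℂ => eval (sx (ex (-y + z • (-w)))) U := by
      funext z
      rw [neg_add, smul_neg]
    rw [e]
    exact hd1 U _ _
  have hzero : ∀ y, φ y = 0 := by
    refine eq_zero_of_mul hR₁ hR₂ φ ?_ ?_
    · intro y w
      exact ((hd1 _ _ _).mul (hd2 _ _ _)).sub ((hd2 _ _ _).mul (hd1 _ _ _))
    · intro y
      set M : Mt n := g * Matrix.diagonal (ex y) * h with hM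
      set N : Mt n := g * Matrix.diagonal (ex (-y)) * h with hN
      have hMN : M * N = 1 := by
        have : M * N = g * (Matrix.diagonal (ex y) * (h * g) * Matrix.diagonal (ex (-y))) * h := by
          simp only [hM, hN, mul_assoc]
        rw [this, hhg, mul_one, Matrix.diagonal_mul_diagonal]
        have e : (Matrix.diagonal fun i => ex y i * ex (-y) i) = (1 : Mt n) := by
          rw [← Matrix.diagonal_one]
          congr 1
          funext i
          show Complex.exp (y i) * Complex.exp (-(y i)) = 1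
          rw [← Complex.exp_add, add_neg_cancel, Complex.exp_zero]
        rw [e, mul_one, hgh]
      have h3 := hinv M N hMN
      have tM := trace_cj hhg (ex y)
      have tN := trace_cj hhg (ex (-y))
      rw [← hM] at tM
      rw [← hN] at tN
      have f1 := congrArg (eval (pt M)) e₁
      have f2 := congrArg (eval (pt N)) e₂
      rw [map_mul, map_mul, eval_bind_tr, eval_bind_tr, tM.1, tM.2] at f1
      rw [map_mul, map_mul, eval_bind_tr, eval_bind_tr, tN.1, tN.2] at f2
      rw [eval_sub, eval_sub, ← hM, ← hN]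
      simp only [hφ, hsx]
      linear_combination (-(eval (pt N) Q₂) *
        (eval ![∑ t, ex (-y) t, ∑ t, ex (-y) t * ex (-y) t] V₂)) * f1 +
        ((eval (pt M) Q₁) * (eval ![∑ t, ex y t, ∑ t, ex y t * ex y t] V₁)) * f2 +
        ((eval ![∑ t, ex y t, ∑ t, ex y t * ex y t] V₁) *
        (eval ![∑ t, ex (-y) t, ∑ t, ex (-y) t * ex (-y) t] V₂)) * h3
  have hall : ∀ s t : Fin 2 → ℂ, eval s U₁ * eval t V₂ = eval t U₂ * eval s V₁ := by
    intro s t
    obtain ⟨x, hx, hx1, hx2, hx3, hx4⟩ := exists_sums hn (s 0) (s 1) (t 0) (t 1)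
    have h1 := hzero (fun k => Complex.log (x k))
    have ex1 : ex (fun k => Complex.log (x k)) = x := by
      funext k
      exact Complex.exp_log (hx k)
    have ex2 : ex (-(fun k => Complex.log (x k))) = fun k => (x k)⁻¹ := by
      funext k
      show Complex.exp (-(Complex.log (x k))) = _
      rw [Complex.exp_neg, Complex.exp_log (hx k)]
    simp only [hφ, ex1, ex2] at h1
    have s1 : sx x = s := by
      funext i
      fin_cases i
      · exact hx1
      · show ∑ t, x t * x t = s 1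
        rw [← hx2]
        exact Finset.sum_congr rfl fun i _ => (sq _).symm
    have s2 : sx (fun k => (x k)⁻¹) = t := by
      funext i
      fin_cases i
      · exact hx3
      · show ∑ t, (x t)⁻¹ * (x t)⁻¹ = t 1
        rw [← hx4]
        exact Finset.sum_congr rfl fun i _ => (sq _).symm
    rw [s1, s2] at h1
    linear_combination h1
  obtain ⟨t₀, ht₀⟩ : ∃ t : Fin 2 → ℂ, eval t V₂ ≠ 0 := by
    by_contra hcon
    push Not at hcon
    apply hV₂
    rw [show V₂ = 0 from MvPolynomial.funext fun a => by rw [hcon a, map_zero], map_zero]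
  refine ⟨eval t₀ U₂ / eval t₀ V₂, ?_⟩
  have hU : U₁ = C (eval t₀ U₂ / eval t₀ V₂) * V₁ := by
    apply MvPolynomial.funext
    intro s
    rw [map_mul, eval_C]
    have := hall s t₀
    field_simp
    linear_combination this
  have h5 : (P₁ - C (eval t₀ U₂ / eval t₀ V₂) * Q₁) * bind₁ ![tr1 n, tr2 n] V₁ = 0 := by
    rw [sub_mul, e₁, hU, map_mul, bind₁_C_right]
    ring
  exact sub_eq_zero.mp ((mul_eq_zero.mp h5).resolve_right hV₁)

end Pool.Agent.X237.PI
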