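import Pool.Agent.X237.PI.Spec
import Pool.Agent.X237.PI.Const

/-!
# Bilinear forms: the slices
-/

set_option autoImplicit false

namespace Pool.Agent.X237.PI

open MvPolynomial Pool.Agent.H515R2.MMR Pool.Agent.H53R3 Pool.Agent.X237.IV

/-- The rational function `P / Q` of a bilinear form is invariant under congruence. -/
def CongInv {n : ℕ} (P Q : Pl (n * n)) : Prop :=
  ∀ (g : (Mt n)ˣ) (A : Mt n),
    eval (pt ((g : Mt n) * A * (g : Mt n).transpose)) P * eval (pt A) Q =
      eval (pt A) P * eval (pt ((g : Mt n) * A * (g : Mt n).transpose)) Q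

variable {m r : ℕ}

/-- The index set of the blocks. -/
abbrev Bx (m r : ℕ) := (Fin m ⊕ Fin m) ⊕ Fin r

/-- The block matrix with the blocks `1` and `M`. -/
def bm {K : Type*} [Zero K] [One K] (r : ℕ) (M : Matrix (Fin m) (Fin m) K) :
    Matrix (Bx m r) (Bx m r) K :=
  Matrix.fromBlocks (Matrix.fromBlocks 0 1 M 0) 0 0 1

theorem bm_map {K K' : Type*} [CommRing K] [CommRing K'] (f : K →+* K')
    (M : Matrix (Fin m) (Fin m) K) : (bm r M).map f = bm r (M.map f) := by
  unfold bm
  rw [Matrix.fromBlocks_map, Matrix.fromBlocks_map]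
  simp

/-- Change of basis by a block matrix. -/
theorem bm_mul (S T U V M : Matrix (Fin m) (Fin m) ℂ) :
    (Matrix.fromBlocks (Matrix.fromBlocks S T U V) 0 0 1 : Matrix (Bx m r) (Bx m r) ℂ) * bm r M *
      (Matrix.fromBlocks (Matrix.fromBlocks S T U V) 0 0 1 :
        Matrix (Bx m r) (Bx m r) ℂ).transpose =
    Matrix.fromBlocks (Matrix.fromBlocks (T * M * S.transpose + S * T.transpose)
      (T * M * U.transpose + S * V.transpose) (V * M * S.transpose + U * T.transpose)
      (V * M * U.transpose + U * V.transpose)) 0 0 1 := by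
  unfold bm
  simp only [Matrix.fromBlocks_transpose, Matrix.fromBlocks_multiply, Matrix.mul_zero,
    Matrix.zero_mul, add_zero, zero_add, Matrix.mul_one, Matrix.transpose_one,
    Matrix.transpose_zero]

variable {n : ℕ} (e : Fin n ≃ Bx m r)

/-- The matrices of the slice, with indices in `Fin n`. -/
def fm {K : Type*} [Zero K] [One K] (M : Matrix (Fin m) (Fin m) K) : Matrix (Fin n) (Fin n) K :=
  (bm r M).submatrix e e

/-- The generic matrix. -/
noncomputable def gen (m : ℕ) : Matrix (Fin m) (Fin m) (Pl (m * m)) :=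
  Matrix.of fun i j => X (finProdFinEquiv (i, j))

theorem gen_map (M : Mt m) : (gen m).map (eval (pt M)) = M := by
  ext i j
  simp only [gen, Matrix.map_apply, Matrix.of_apply, eval_X, IV.pt, Equiv.symm_apply_apply]

/-- The affine subspaces. -/
noncomputable def fslice (h : Mt n) : Fin (n * n) → Pl (m * m) := fun t =>
  (h.map (C : ℂ →+* Pl (m * m)) * fm e (gen m) * h.transpose.map (C : ℂ →+* Pl (m * m)) :
    Matrix (Fin n) (Fin n) (Pl (m * m))) (finProdFinEquiv.symm t).1 (finProdFinEquiv.symm t).2

theorem eval_fslice (h : Mt n) (P : Pl (n * n)) (M : Mt m) :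
    eval (pt M) (aeval (fslice e h) P) = eval (pt (h * fm e M * h.transpose)) P := by
  have h1 : (eval (pt M)).comp (aeval (fslice e h) : Pl (n * n) →ₐ[ℂ] Pl (m * m)).toRingHom =
      eval (pt (h * fm e M * h.transpose)) := by
    refine MvPolynomial.ringHom_ext ?_ ?_
    · intro c
      simp
    · intro t
      show eval (pt M) (aeval (fslice e h) (X t)) = _
      rw [aeval_X, eval_X, fslice, IV.pt]
      have h2 : ((h.map (C : ℂ →+* Pl (m * m)) * fm e (gen m) *
          h.transpose.map (C : ℂ →+* Pl (m * m)) : Matrix (Fin n) (Fin n)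
          (Pl (m * m))).map (eval (pt M))) = h * fm e M * h.transpose := by
        rw [Matrix.map_mul, Matrix.map_mul]
        have h3 : ∀ A : Mt n, (A.map (C : ℂ → Pl (m * m))).map (eval (pt M)) = A := by
          intro A
          ext i j
          simp
        rw [show (h.map (C : ℂ →+* Pl (m * m))).map (eval (pt M)) = h from h3 h,
          show ((h.transpose).map (C : ℂ →+* Pl (m * m))).map (eval (pt M)) = h.transpose from
            h3 _]
        have h4 : (fm e (gen m)).map (eval (pt M)) = fm e M := by
          unfold fm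
          rw [← Matrix.submatrix_map, bm_map, gen_map]
        rw [h4]
      exact congrFun (congrFun h2 _) _
  exact congrArg (fun f => f P) h1

theorem fslice_affine (h : Mt n) (t : Fin (n * n)) :
    fslice e h t ∈ Submodule.span ℂ ({1} ∪ Set.range (X : Fin (m * m) → Pl (m * m))) := by
  have h1 : ∀ a b : Bx m r, bm r (gen m) a b ∈
      Submodule.span ℂ ({1} ∪ Set.range (X : Fin (m * m) → Pl (m * m))) := by
    have h0 : (0 : Pl (m * m)) ∈
        Submodule.span ℂ ({1} ∪ Set.range (X : Fin (m * m) → Pl (m * m))) :=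
      Submodule.zero_mem _
    have hone : (1 : Pl (m * m)) ∈
        Submodule.span ℂ ({1} ∪ Set.range (X : Fin (m * m) → Pl (m * m))) :=
      Submodule.subset_span (Or.inl rfl)
    have hX : ∀ s, (X s : Pl (m * m)) ∈
        Submodule.span ℂ ({1} ∪ Set.range (X : Fin (m * m) → Pl (m * m))) := fun s =>
      Submodule.subset_span (Or.inr ⟨s, rfl⟩)
    have hi : ∀ (ι : Type) [DecidableEq ι] (a b : ι), ((1 : Matrix ι ι (Pl (m * m))) a b) ∈
        Submodule.span ℂ ({1} ∪ Set.range (X : Fin (m * m) → Pl (m * m))) := by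
      intro ι _ a b
      rw [Matrix.one_apply]
      split_ifs
      · exact hone
      · exact h0
    rintro ((a | a) | a) ((b | b) | b)
    · exact h0
    · exact hi _ a b
    · exact h0
    · exact hX _
    · exact h0
    · exact h0
    · exact h0
    · exact h0
    · exact hi _ a b
  rw [fslice, Matrix.mul_apply]
  refine Submodule.sum_mem _ fun b _ => ?_
  rw [Matrix.mul_apply, Finset.sum_mul]
  refine Submodule.sum_mem _ fun a _ => ?_
  have : (h.map (C : ℂ →+* Pl (m * m))) (finProdFinEquiv.symm t).1 a * fm e (gen m) a b *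
      (h.transpose.map (C : ℂ →+* Pl (m * m))) b (finProdFinEquiv.symm t).2 =
      (h (finProdFinEquiv.symm t).1 a * h.transpose b (finProdFinEquiv.symm t).2) •
        fm e (gen m) a b := by
    rw [Matrix.map_apply, Matrix.map_apply, Algebra.smul_def]
    show _ = C _ * _
    rw [C_mul]
    ring
  exact this ▸ Submodule.smul_mem _ _ (h1 _ _)

/-- The restriction of an invariant to a slice is invariant under conjugation. -/
theorem conjInv_fslice {P Q : Pl (n * n)} (hinv : CongInv P Q) {A A' : Mt n}
    (hA : A * A' = 1) (hA' : A' * A = 1) :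
    ConjInv (aeval (fslice e A) P) (aeval (fslice e A) Q) := by
  intro g M
  rw [eval_fslice, eval_fslice, eval_fslice, eval_fslice]
  set D : Matrix (Bx m r) (Bx m r) ℂ := Matrix.fromBlocks (Matrix.fromBlocks
    ((g⁻¹ : (Mt m)ˣ) : Mt m).transpose 0 0 (g : Mt m)) 0 0 1 with hD
  set D' : Matrix (Bx m r) (Bx m r) ℂ := Matrix.fromBlocks (Matrix.fromBlocks
    (g : Mt m).transpose 0 0 ((g⁻¹ : (Mt m)ˣ) : Mt m)) 0 0 1 with hD'
  have hDD : D * D' = 1 := by
    rw [hD, hD']
    simp only [Matrix.fromBlocks_multiply, Matrix.mul_zero, Matrix.zero_mul, add_zero, zero_add,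
      Matrix.mul_one, ← Matrix.transpose_mul, Units.mul_inv, Matrix.transpose_one,
      Matrix.fromBlocks_one]
  have hDD' : D' * D = 1 := mul_eq_one_comm.mp hDD
  have hconj : D * bm r M * D.transpose = bm r ((g : Mt m) * M * ((g⁻¹ : (Mt m)ˣ) : Mt m)) := by
    rw [hD, bm_mul]
    simp only [Matrix.transpose_transpose, Matrix.transpose_zero, Matrix.mul_zero, Matrix.zero_mul,
      add_zero, zero_add, ← Matrix.transpose_mul, Units.mul_inv, Matrix.transpose_one]
    rfl
  have s1 : ∀ S T : Matrix (Bx m r) (Bx m r) ℂ, (S * T).submatrix e e =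
      S.submatrix e e * T.submatrix e e := fun S T => (Matrix.submatrix_mul_equiv S T e e e).symm
  have h1 : D.submatrix e e * D'.submatrix e e = 1 := by
    rw [← s1, hDD, Matrix.submatrix_one_equiv]
  have h1' : D'.submatrix e e * D.submatrix e e = 1 := by
    rw [← s1, hDD', Matrix.submatrix_one_equiv]
  let G : (Mt n)ˣ := (⟨A, A', hA, hA'⟩ : (Mt n)ˣ) *
    (⟨D.submatrix e e, D'.submatrix e e, h1, h1'⟩ : (Mt n)ˣ) * (⟨A', A, hA', hA⟩ : (Mt n)ˣ)
  have e1 : (G : Mt n) * (A * fm e M * A.transpose) * (G : Mt n).transpose =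
      A * fm e ((g : Mt m) * M * ((g⁻¹ : (Mt m)ˣ) : Mt m)) * A.transpose := by
    show (A * D.submatrix e e * A') * (A * fm e M * A.transpose) *
      (A * D.submatrix e e * A').transpose = _
    rw [fm, fm, ← hconj, s1, s1]
    have t1 : A.transpose * A'.transpose = 1 := by
      rw [← Matrix.transpose_mul, hA', Matrix.transpose_one]
    have t2 : (A * D.submatrix e e * A').transpose =
        A'.transpose * ((D.submatrix e e).transpose * A.transpose) := by
      rw [Matrix.transpose_mul, Matrix.transpose_mul]
    rw [t2]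
    calc (A * D.submatrix e e * A') * (A * (bm r M).submatrix e e * A.transpose) *
        (A'.transpose * ((D.submatrix e e).transpose * A.transpose))
        = A * (D.submatrix e e * (A' * A) * (bm r M).submatrix e e *
            (A.transpose * A'.transpose) * (D.submatrix e e).transpose) * A.transpose := by
          simp only [mul_assoc]
      _ = _ := by
          rw [hA', t1, mul_one, mul_one]
          rfl
  have h := hinv G (A * fm e M * A.transpose)
  rw [e1] at h
  exact h

/-- Inversion in the slices. -/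
theorem fslice_inv {P Q : Pl (n * n)} (hinv : CongInv P Q) {A A' : Mt n}
    (hA : A * A' = 1) (hA' : A' * A = 1) {M N : Mt m} (hMN : M * N = 1) :
    eval (pt M) (aeval (fslice e A) P) * eval (pt N.transpose) (aeval (fslice e A) Q) =
      eval (pt N.transpose) (aeval (fslice e A) P) * eval (pt M) (aeval (fslice e A) Q) := by
  have hNM : N * M = 1 := mul_eq_one_comm.mp hMN
  rw [eval_fslice, eval_fslice, eval_fslice, eval_fslice]
  set D : Matrix (Bx m r) (Bx m r) ℂ := Matrix.fromBlocks (Matrix.fromBlocks 0 N 1 0) 0 0 1 with hD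
  set D' : Matrix (Bx m r) (Bx m r) ℂ := Matrix.fromBlocks (Matrix.fromBlocks 0 1 M 0) 0 0 1
    with hD'
  have hDD : D * D' = 1 := by
    rw [hD, hD']
    simp only [Matrix.fromBlocks_multiply, Matrix.mul_zero, Matrix.zero_mul, add_zero, zero_add,
      Matrix.mul_one, hNM, Matrix.fromBlocks_one]
  have hDD' : D' * D = 1 := mul_eq_one_comm.mp hDD
  have hconj : D * bm r M * D.transpose = bm r N.transpose := by
    rw [hD, bm_mul]
    simp only [Matrix.transpose_zero, Matrix.mul_zero, Matrix.zero_mul, Matrix.mul_one,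
      add_zero, zero_add, Matrix.one_mul, Matrix.transpose_one, hNM]
    rfl
  have s1 : ∀ S T : Matrix (Bx m r) (Bx m r) ℂ, (S * T).submatrix e e =
      S.submatrix e e * T.submatrix e e := fun S T => (Matrix.submatrix_mul_equiv S T e e e).symm
  have h1 : D.submatrix e e * D'.submatrix e e = 1 := by
    rw [← s1, hDD, Matrix.submatrix_one_equiv]
  have h1' : D'.submatrix e e * D.submatrix e e = 1 := by
    rw [← s1, hDD', Matrix.submatrix_one_equiv]
  let G : (Mt n)ˣ := (⟨A, A', hA, hA'⟩ : (Mt n)ˣ) *
    (⟨D.submatrix e e, D'.submatrix e e, h1, h1'⟩ : (Mt n)ˣ) * (⟨A', A, hA', hA⟩ : (Mt n)ˣ)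
  have e1 : (G : Mt n) * (A * fm e M * A.transpose) * (G : Mt n).transpose =
      A * fm e N.transpose * A.transpose := by
    show (A * D.submatrix e e * A') * (A * fm e M * A.transpose) *
      (A * D.submatrix e e * A').transpose = _
    rw [fm, fm, ← hconj, s1, s1]
    have t1 : A.transpose * A'.transpose = 1 := by
      rw [← Matrix.transpose_mul, hA', Matrix.transpose_one]
    have t2 : (A * D.submatrix e e * A').transpose =
        A'.transpose * ((D.submatrix e e).transpose * A.transpose) := by
      rw [Matrix.transpose_mul, Matrix.transpose_mul]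
    rw [t2]
    calc (A * D.submatrix e e * A') * (A * (bm r M).submatrix e e * A.transpose) *
        (A'.transpose * ((D.submatrix e e).transpose * A.transpose))
        = A * (D.submatrix e e * (A' * A) * (bm r M).submatrix e e *
            (A.transpose * A'.transpose) * (D.submatrix e e).transpose) * A.transpose := by
          simp only [mul_assoc]
      _ = _ := by
          rw [hA', t1, mul_one, mul_one]
          rfl
  have h := hinv G (A * fm e M * A.transpose)
  rw [e1] at h
  exact h.symm

end Pool.Agent.X237.PI
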