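import Pool.Agent.X237.PI.Form1

/-!
# Bilinear forms: the slices are dense
-/

set_option autoImplicit false

namespace Pool.Agent.X237.PI

open MvPolynomial Pool.Agent.H515R2.MMR Pool.Agent.H53R3 Pool.Agent.X237.IV

attribute [local instance] Matrix.normedAddCommGroup Matrix.normedSpace

variable {n m r : ℕ}

/-- A polynomial which vanishes near a point vanishes. -/
theorem eq_zero_of_nhds {R : Pl (n * n)} (A : Mt n) (h : ∀ᶠ B in nhds A, eval (pt B) R = 0) :
    R = 0 := by
  apply MvPolynomial.funext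
  intro a
  rw [map_zero, ← pt_toM a]
  set f : ℂ → ℂ := fun z => eval (pt (A + z • (toM a - A))) R with hf
  have hfd : Differentiable ℂ f := by
    refine diff_eval R (fun z => pt (A + z • (toM a - A))) fun t => ?_
    show Differentiable ℂ fun z : ℂ => pt A t + z * pt (toM a - A) t
    exact (differentiable_id.mul_const _).const_add _
  have hcont : Filter.Tendsto (fun z : ℂ => A + z • (toM a - A)) (nhds 0) (nhds A) := by
    have : Continuous fun z : ℂ => A + z • (toM a - A) := by fun_prop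
    have h1 := this.tendsto 0
    rwa [zero_smul, add_zero] at h1
  have h2 : ∀ᶠ z in nhds (0 : ℂ), f z = (fun _ => (0 : ℂ)) z := hcont.eventually h
  have hga : AnalyticOnNhd ℂ f Set.univ := fun z _ => hfd.analyticAt z
  have h3 := hga.eq_of_eventuallyEq (analyticOnNhd_const (v := (0 : ℂ))) h2
  have h4 := congrFun h3 1
  simp only [hf, one_smul, add_sub_cancel] at h4
  exact h4

/-- The base point. -/
def b0 (m r : ℕ) : Matrix (Bx m r) (Bx m r) ℂ := bm r ((2 : ℂ) • (1 : Mt m))

/-- The infinitesimal change of basis. -/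
noncomputable def yM (T : Matrix (Bx m r) (Bx m r) ℂ) : Matrix (Bx m r) (Bx m r) ℂ
  | .inl (.inl i), .inl (.inl j) => T (.inl (.inl i)) (.inl (.inr j))
  | .inl (.inl i), .inl (.inr j) =>
    (2 * T (.inl (.inl i)) (.inl (.inl j)) - T (.inl (.inl j)) (.inl (.inl i))) / 3
  | .inl (.inr i), .inl (.inl j) =>
    (2 * T (.inl (.inr j)) (.inl (.inr i)) - T (.inl (.inr i)) (.inl (.inr j))) / 3
  | .inl (.inr _), .inl (.inr _) => 0
  | .inl (.inl i), .inr k => 2 * T (.inl (.inl i)) (.inr k) - T (.inr k) (.inl (.inl i))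
  | .inl (.inr i), .inr k => 2 * T (.inr k) (.inl (.inr i)) - T (.inl (.inr i)) (.inr k)
  | .inr k, .inl (.inl i) => T (.inl (.inr i)) (.inr k) - T (.inr k) (.inl (.inr i))
  | .inr k, .inl (.inr i) => T (.inr k) (.inl (.inl i)) - T (.inl (.inl i)) (.inr k)
  | .inr k, .inr l => T (.inr k) (.inr l) / 2

/-- The change of the block. -/
noncomputable def zM (T : Matrix (Bx m r) (Bx m r) ℂ) : Mt m :=
  Matrix.of fun i j => T (.inl (.inr i)) (.inl (.inl j)) - 2 * T (.inl (.inl j)) (.inl (.inr i))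

/-- The linear part of the block matrix. -/
def lm (r : ℕ) (M : Mt m) : Matrix (Bx m r) (Bx m r) ℂ :=
  Matrix.fromBlocks (Matrix.fromBlocks 0 0 M 0) 0 0 0

theorem bm_add (M N : Mt m) : bm r (M + N) = bm r M + lm r N := by
  unfold bm lm
  rw [Matrix.fromBlocks_add, Matrix.fromBlocks_add]
  simp

theorem lm_smul (c : ℂ) (N : Mt m) : lm r (c • N) = c • lm r N := by
  unfold lm
  rw [Matrix.fromBlocks_smul, Matrix.fromBlocks_smul]
  simp

theorem solve (hr : r ≤ 1) (T : Matrix (Bx m r) (Bx m r) ℂ) :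
    yM T * b0 m r + b0 m r * (yM T).transpose + lm r (zM T) = T := by
  have hsub : ∀ k l : Fin r, k = l := fun k l => Fin.ext (by omega)
  have r1 : ∀ (Y : Matrix (Bx m r) (Bx m r) ℂ) a j, (Y * b0 m r) a (.inl (.inl j)) =
      2 * Y a (.inl (.inr j)) := by
    intro Y a j
    simp [Matrix.mul_apply, Fintype.sum_sum_type, b0, bm, Matrix.one_apply, mul_comm]
  have r2 : ∀ (Y : Matrix (Bx m r) (Bx m r) ℂ) a j, (Y * b0 m r) a (.inl (.inr j)) =
      Y a (.inl (.inl j)) := by
    intro Y a j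
    simp [Matrix.mul_apply, Fintype.sum_sum_type, b0, bm, Matrix.one_apply]
  have r3 : ∀ (Y : Matrix (Bx m r) (Bx m r) ℂ) a k, (Y * b0 m r) a (.inr k) = Y a (.inr k) := by
    intro Y a k
    simp [Matrix.mul_apply, Fintype.sum_sum_type, b0, bm, Matrix.one_apply]
  have l1 : ∀ (Y : Matrix (Bx m r) (Bx m r) ℂ) b i, (b0 m r * Y.transpose) (.inl (.inl i)) b =
      Y b (.inl (.inr i)) := by
    intro Y b i
    simp [Matrix.mul_apply, Fintype.sum_sum_type, b0, bm, Matrix.one_apply]
  have l2 : ∀ (Y : Matrix (Bx m r) (Bx m r) ℂ) b i, (b0 m r * Y.transpose) (.inl (.inr i)) b =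
      2 * Y b (.inl (.inl i)) := by
    intro Y b i
    simp [Matrix.mul_apply, Fintype.sum_sum_type, b0, bm, Matrix.one_apply]
  have l3 : ∀ (Y : Matrix (Bx m r) (Bx m r) ℂ) b k, (b0 m r * Y.transpose) (.inr k) b =
      Y b (.inr k) := by
    intro Y b k
    simp [Matrix.mul_apply, Fintype.sum_sum_type, b0, bm, Matrix.one_apply]
  ext a b
  rw [Matrix.add_apply, Matrix.add_apply]
  rcases a with (i | i) | k <;> rcases b with (j | j) | l
  · rw [r1, l1]
    show 2 * ((2 * T _ _ - T _ _) / 3) + (2 * T _ _ - T _ _) / 3 + 0 = _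
    ring
  · rw [r2, l1]
    show T _ _ + 0 + 0 = _
    ring
  · rw [r3, l1]
    show (2 * T _ _ - T _ _) + (T _ _ - T _ _) + 0 = _
    ring
  · rw [r1, l2]
    show 2 * 0 + 2 * T _ _ + (T _ _ - 2 * T _ _) = _
    ring
  · rw [r2, l2]
    show (2 * T _ _ - T _ _) / 3 + 2 * ((2 * T _ _ - T _ _) / 3) + 0 = _
    ring
  · rw [r3, l2]
    show (2 * T _ _ - T _ _) + 2 * (T _ _ - T _ _) + 0 = _
    ring
  · rw [r1, l3]
    show 2 * (T _ _ - T _ _) + (2 * T _ _ - T _ _) + 0 = _
    ring
  · rw [r2, l3]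
    show (T _ _ - T _ _) + (2 * T _ _ - T _ _) + 0 = _
    ring
  · rw [r3, l3, hsub k l]
    show T _ _ / 2 + T _ _ / 2 + 0 = _
    ring

variable (e : Fin n ≃ Bx m r)

/-- The parametrisation. -/
noncomputable def Phi (p : Mt n × Mt m) : Mt n := p.1 * fm e p.2 * p.1.transpose

theorem contDiff_Phi : ContDiff ℂ 1 (Phi e) := by
  refine contDiff_pi.mpr fun i => contDiff_pi.mpr fun j => ?_
  have h1 : ∀ (i a : Fin n), ContDiff ℂ 1 (fun p : Mt n × Mt m => p.1 i a) := by
    intro i a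
    have : ContDiff ℂ 1 (fun p : Mt n × Mt m => p.1) := contDiff_fst
    exact contDiff_pi.mp (contDiff_pi.mp this i) a
  have h2 : ∀ (i a : Fin m), ContDiff ℂ 1 (fun p : Mt n × Mt m => p.2 i a) := by
    intro i a
    have : ContDiff ℂ 1 (fun p : Mt n × Mt m => p.2) := contDiff_snd
    exact contDiff_pi.mp (contDiff_pi.mp this i) a
  have h3 : ∀ a b : Bx m r, ContDiff ℂ 1 (fun p : Mt n × Mt m => bm r p.2 a b) := by
    rintro ((a | a) | a) ((b | b) | b)
    · exact contDiff_const
    · exact contDiff_const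
    · exact contDiff_const
    · exact h2 a b
    · exact contDiff_const
    · exact contDiff_const
    · exact contDiff_const
    · exact contDiff_const
    · exact contDiff_const
  have h4 : (fun p : Mt n × Mt m => Phi e p i j) = fun p =>
      ∑ b, (∑ a, p.1 i a * bm r p.2 (e a) (e b)) * p.1 j b := by
    funext p
    show (p.1 * fm e p.2 * p.1.transpose) i j = _
    rw [Matrix.mul_apply]
    refine Finset.sum_congr rfl fun b _ => ?_
    rw [Matrix.mul_apply]
    rfl
  rw [h4]
  exact ContDiff.sum fun b _ => (ContDiff.sum fun a _ => (h1 i a).mul (h3 _ _)).mul (h1 j b)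

theorem expand3 {R : Type*} [Ring R] [Algebra ℂ R] (Y Y' A W : R) (t : ℂ) :
    (1 + t • Y) * (A + t • W) * (1 + t • Y') =
      A + t • (Y * A + A * Y' + W) + t ^ 2 • (Y * A * Y' + Y * W + W * Y') +
        t ^ 3 • (Y * W * Y') := by
  simp only [add_mul, mul_add, one_mul, mul_one, smul_mul_assoc, mul_smul_comm, smul_smul,
        smul_add]
  module

theorem phi_line (Y : Mt n) (Z : Mt m) (t : ℂ) :
    Phi e ((1, (2 : ℂ) • (1 : Mt m)) + t • (Y, Z)) =
      (b0 m r).submatrix e e + t • (Y * (b0 m r).submatrix e e +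
        (b0 m r).submatrix e e * Y.transpose + (lm r Z).submatrix e e) +
      t ^ 2 • (Y * (b0 m r).submatrix e e * Y.transpose + Y * (lm r Z).submatrix e e +
        (lm r Z).submatrix e e * Y.transpose) +
      t ^ 3 • (Y * (lm r Z).submatrix e e * Y.transpose) := by
  rw [← expand3]
  show (1 + t • Y) * fm e ((2 : ℂ) • (1 : Mt m) + t • Z) * (1 + t • Y).transpose = _
  have e1 : fm e ((2 : ℂ) • (1 : Mt m) + t • Z) =
      (b0 m r).submatrix e e + t • (lm r Z).submatrix e e := by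
    unfold fm
    rw [bm_add, lm_smul]
    rfl
  rw [e1, Matrix.transpose_add, Matrix.transpose_one, Matrix.transpose_smul]

theorem deriv_line (A B C' D : Mt n) : HasDerivAt (fun t : ℂ =>
    A + t • B + t ^ 2 • C' + t ^ 3 • D) B 0 := by
  have a1 := ((hasDerivAt_id (0 : ℂ)).smul_const B).const_add A
  have a2 := (hasDerivAt_pow 2 (0 : ℂ)).smul_const C'
  have a3 := (hasDerivAt_pow 3 (0 : ℂ)).smul_const D
  have := (a1.add a2).add a3
  refine this.congr_deriv ?_
  simp

theorem fderiv_Phi (Y : Mt n) (Z : Mt m) :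
    fderiv ℂ (Phi e) (1, (2 : ℂ) • (1 : Mt m)) (Y, Z) = Y * (b0 m r).submatrix e e +
        (b0 m r).submatrix e e * Y.transpose + (lm r Z).submatrix e e := by
  have hγ : HasDerivAt (fun t : ℂ => ((1, (2 : ℂ) • (1 : Mt m)) : Mt n × Mt m) + t • (Y, Z))
      (Y, Z) 0 := by
    have := ((hasDerivAt_id (0 : ℂ)).smul_const ((Y, Z) : Mt n × Mt m)).const_add
      ((1, (2 : ℂ) • (1 : Mt m)) : Mt n × Mt m)
    rwa [one_smul] at this
  have hF : HasFDerivAt (Phi e) (fderiv ℂ (Phi e) (1, (2 : ℂ) • (1 : Mt m)))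
      (((1, (2 : ℂ) • (1 : Mt m)) : Mt n × Mt m) + (0 : ℂ) • (Y, Z)) := by
    rw [zero_smul, add_zero]
    exact ((contDiff_Phi e).differentiable (by norm_num) _).hasFDerivAt
  have h1 := hF.comp_hasDerivAt (0 : ℂ) hγ
  have h2 : (Phi e ∘ fun t : ℂ => ((1, (2 : ℂ) • (1 : Mt m)) : Mt n × Mt m) + t • (Y, Z)) = _ :=
    funext fun t => phi_line e Y Z t
  rw [h2] at h1
  exact h1.unique (deriv_line _ _ _ _)

theorem dense_forms (hr : r ≤ 1) {R : Pl (n * n)} (hR : R ≠ 0) :
    ∃ (h : (Mt n)ˣ) (M : Mt m),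
      eval (pt ((h : Mt n) * fm e M * (h : Mt n).transpose)) R ≠ 0 := by
  classical
  by_contra hcon
  push Not at hcon
  apply hR
  set p₀ : Mt n × Mt m := (1, (2 : ℂ) • (1 : Mt m)) with hp₀
  have hs : HasStrictFDerivAt (Phi e) (fderiv ℂ (Phi e) p₀) p₀ :=
    (contDiff_Phi e).contDiffAt.hasStrictFDerivAt (by norm_num)
  have hsurj : (fderiv ℂ (Phi e) p₀).range = ⊤ := by
    rw [LinearMap.range_eq_top]
    intro T
    set T' : Matrix (Bx m r) (Bx m r) ℂ := T.submatrix e.symm e.symm with hT'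
    set Y : Mt n := (yM T').submatrix e e with hY
    set Z : Mt m := zM T' with hZ
    refine ⟨(Y, Z), ?_⟩
    show fderiv ℂ (Phi e) (1, (2 : ℂ) • (1 : Mt m)) (Y, Z) = T
    rw [fderiv_Phi, hY, hZ]
    have h5 := congrArg (fun S : Matrix (Bx m r) (Bx m r) ℂ => S.submatrix e e) (solve hr T')
    simp only [Matrix.submatrix_add] at h5
    have s1 : ∀ S T : Matrix (Bx m r) (Bx m r) ℂ, (S * T).submatrix e e =
        S.submatrix e e * T.submatrix e e := fun S T => (Matrix.submatrix_mul_equiv S T e e e).symm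
    have h6 : T'.submatrix e e = T := by
      ext i j
      simp [hT']
    rw [← h6, ← h5]
    simp only [Pi.add_apply, s1]
    rfl
  have hmap := hs.map_nhds_eq_of_surj hsurj
  have hdet : ∀ᶠ p in nhds p₀, IsUnit (p : Mt n × Mt m).1 := by
    have hc : Continuous fun p : Mt n × Mt m => p.1.det := Continuous.matrix_det continuous_fst
    have h0 : (p₀.1).det ≠ 0 := by
      rw [hp₀, Matrix.det_one]
      exact one_ne_zero
    filter_upwards [hc.continuousAt.eventually_ne h0] with p hp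
    exact (Matrix.isUnit_iff_isUnit_det _).mpr (isUnit_iff_ne_zero.mpr hp)
  have key : ∀ᶠ B in Filter.map (Phi e) (nhds p₀), eval (pt B) R = 0 := by
    rw [Filter.eventually_map]
    filter_upwards [hdet] with p hp
    obtain ⟨u, hu⟩ := hp
    have := hcon u p.2
    rw [hu] at this
    exact this
  exact eq_zero_of_nhds (Phi e p₀) (hmap.ge key)

end Pool.Agent.X237.PI
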