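import Pool.Agent.X237.PI.Form2

/-!
# Invariants of bilinear forms
-/

set_option autoImplicit false

namespace Pool.Agent.X237.PI

open MvPolynomial Pool.Agent.H515R2.MMR Pool.Agent.H53R3 Pool.Agent.X237.IV

variable {n m r : ℕ}

/-- Transposition of the coordinates. -/
def tp (m : ℕ) (t : Fin (m * m)) : Fin (m * m) :=
  finProdFinEquiv ((finProdFinEquiv.symm t).2, (finProdFinEquiv.symm t).1)

theorem eval_tp (P : Pl (m * m)) (N : Mt m) :
    eval (pt N) (rename (tp m) P) = eval (pt N.transpose) P := by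
  rw [eval_rename]
  congr 2
  funext t
  show N _ _ = N _ _
  simp only [tp, Equiv.symm_apply_apply]

theorem rename_tr1 : rename (tp m) (tr1 m) = tr1 m := by
  apply MvPolynomial.funext
  intro a
  rw [← pt_toM a, eval_tp, eval_tr1, eval_tr1, Matrix.trace_transpose]

theorem rename_tr2 : rename (tp m) (tr2 m) = tr2 m := by
  apply MvPolynomial.funext
  intro a
  rw [← pt_toM a, eval_tp, eval_tr2, eval_tr2, ← Matrix.transpose_mul, Matrix.trace_transpose]

theorem rename_bind (U : MvPolynomial (Fin 2) ℂ) :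
    rename (tp m) (bind₁ ![tr1 m, tr2 m] U) = bind₁ ![tr1 m, tr2 m] U := by
  apply MvPolynomial.funext
  intro a
  rw [← pt_toM a, eval_tp, eval_bind_tr, eval_bind_tr, Matrix.trace_transpose,
    ← Matrix.transpose_mul, Matrix.trace_transpose]

theorem rename_tp_inj {P : Pl (m * m)} (h : rename (tp m) P = 0) : P = 0 := by
  apply MvPolynomial.funext
  intro a
  have := eval_tp P (toM a).transpose
  rw [h, map_zero, Matrix.transpose_transpose, pt_toM] at this
  rw [← this, map_zero]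

theorem ofTraces_tp {P Q : Pl (m * m)} (hQ : Q ≠ 0) (h : OfTraces P Q) :
    OfTraces (rename (tp m) P) (rename (tp m) Q) := by
  obtain ⟨U, V, hV, hUV⟩ := ofTraces_eq hQ h
  refine ⟨U, V, hV, ?_⟩
  have h1 := congrArg (rename (tp m)) hUV
  rw [map_mul, map_mul, rename_bind, rename_bind] at h1
  have hinj : Function.Injective (algebraMap (Pl (m * m)) (RF (m * m))) :=
    IsFractionRing.injective _ _
  have hne : ∀ R : Pl (m * m), R ≠ 0 → algebraMap (Pl (m * m)) (RF (m * m)) R ≠ 0 := by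
    intro R hR h0
    exact hR (hinj (by rw [h0, map_zero]))
  have hQ' : rename (tp m) Q ≠ 0 := fun h0 => hQ (rename_tp_inj h0)
  unfold rat
  rw [div_eq_div_iff (hne _ hQ') (hne _ hV), ← map_mul, ← map_mul]
  congr 1
  exact h1.trans (mul_comm _ _)

/-- **Invariants of bilinear forms**, for slices. -/
theorem forms (e : Fin n ≃ Bx m r) (hr : r ≤ 1) {P Q : Pl (n * n)} (hm : 7 ≤ m) (hQ : Q ≠ 0)
    (hinv : CongInv P Q) {q L : ℕ} (h5 : 5 * q ≤ m)
    (hL : SLPComputes (xv (m := n * n)) L {rat P Q}) :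
    (∃ c : ℂ, P = C c * Q) ∨ HasRank q (16 * L) := by
  classical
  by_cases hrk : HasRank q (16 * L)
  · exact Or.inr hrk
  left
  have hset : ∀ (m : ℕ) (a : RF m), ({f | ∃ _ : Unit, f = a} : Set (RF m)) = {a} := by
    intro m a
    ext f
    simp
  have hL' : SLPComputes (xv (m := n * n)) L {f | ∃ _ : Unit, f = rat P Q} := by
    rw [hset]
    exact hL
  obtain ⟨d, hd0, hd⟩ := slp_spec (P := fun _ : Unit => P) hQ hL'
  -- the restriction to a good slice is constant
  have hgood : ∀ (h : (Mt n)ˣ) (M : Mt m),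
      eval (pt ((h : Mt n) * fm e M * (h : Mt n).transpose)) d ≠ 0 → ∃ c : ℂ,
      aeval (fslice e (h : Mt n)) P = C c * aeval (fslice e (h : Mt n)) Q ∧
      aeval (fslice e (h : Mt n)) Q ≠ 0 := by
    intro h M hM
    obtain ⟨A, A', hAA', hA'A⟩ := h
    have d1 : aeval (fslice e A) d ≠ 0 := by
      intro h0
      apply hM
      show eval (pt (A * fm e M * A.transpose)) d = 0
      rw [← eval_fslice, h0, map_zero]
    obtain ⟨q1, L1⟩ := hd (m * m) (fslice e A) (fslice_affine e A) d1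
    rw [hset] at L1
    have o1 := (dichotomy hm q1 (conjInv_fslice e hinv hAA' hA'A) h5 L1).resolve_right hrk
    have q2 : rename (tp m) (aeval (fslice e A) Q) ≠ 0 := fun h0 => q1 (rename_tp_inj h0)
    obtain ⟨c, hc⟩ := const_of_inv (by omega) q1 q2 o1 (ofTraces_tp q1 o1)
      (fun M N hMN => by
        rw [eval_tp, eval_tp]
        exact fslice_inv e hinv hAA' hA'A hMN)
    exact ⟨c, hc, q1⟩
  obtain ⟨h₀, M₀, hM₀⟩ := dense_forms e hr hd0
  obtain ⟨c, hc, hq⟩ := hgood h₀ M₀ hM₀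
  refine ⟨c, ?_⟩
  by_contra hne
  obtain ⟨h, M, hM⟩ := dense_forms e hr (mul_ne_zero (sub_ne_zero.mpr hne) hd0)
  rw [map_mul] at hM
  obtain ⟨c', hc', hq'⟩ := hgood h M (right_ne_zero_of_mul hM)
  have hcc : c' = c := by
    obtain ⟨x, hx⟩ : ∃ x : Fin (m * m) → ℂ,
        eval x (aeval (fslice e (h₀ : Mt n)) Q * aeval (fslice e (h : Mt n)) Q) ≠ 0 := by
      by_contra hcon
      push Not at hcon
      exact mul_ne_zero hq hq' (MvPolynomial.funext fun a => by rw [hcon a, map_zero])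
    rw [← pt_toM x, map_mul] at hx
    have g1 := congrArg (eval (pt (toM x))) hc
    have g2 := congrArg (eval (pt (toM x))) hc'
    rw [map_mul, eval_C, eval_fslice, eval_fslice] at g1 g2
    rw [eval_fslice, eval_fslice] at hx
    have e1 : ((h * h₀⁻¹ : (Mt n)ˣ) : Mt n) * ((h₀ : Mt n) * fm e (toM x) *
        (h₀ : Mt n).transpose) * ((h * h₀⁻¹ : (Mt n)ˣ) : Mt n).transpose =
        (h : Mt n) * fm e (toM x) * (h : Mt n).transpose := by
      have t1 : (h₀ : Mt n).transpose * ((h * h₀⁻¹ : (Mt n)ˣ) : Mt n).transpose =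
          (h : Mt n).transpose := by
        rw [← Matrix.transpose_mul, ← Units.val_mul, inv_mul_cancel_right]
      have t2 : ((h * h₀⁻¹ : (Mt n)ˣ) : Mt n) * (h₀ : Mt n) = (h : Mt n) := by
        rw [← Units.val_mul, inv_mul_cancel_right]
      calc ((h * h₀⁻¹ : (Mt n)ˣ) : Mt n) * ((h₀ : Mt n) * fm e (toM x) *
          (h₀ : Mt n).transpose) * ((h * h₀⁻¹ : (Mt n)ˣ) : Mt n).transpose
          = (((h * h₀⁻¹ : (Mt n)ˣ) : Mt n) * (h₀ : Mt n)) * fm e (toM x) *
            ((h₀ : Mt n).transpose * ((h * h₀⁻¹ : (Mt n)ˣ) : Mt n).transpose) := by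
            simp only [mul_assoc]
        _ = _ := by rw [t1, t2]
    have hi := hinv (h * h₀⁻¹) ((h₀ : Mt n) * fm e (toM x) * (h₀ : Mt n).transpose)
    rw [e1, g1, g2] at hi
    have h' : (c' - c) * (eval (pt ((h₀ : Mt n) * fm e (toM x) * (h₀ : Mt n).transpose)) Q *
        eval (pt ((h : Mt n) * fm e (toM x) * (h : Mt n).transpose)) Q) = 0 := by
      linear_combination hi
    exact sub_eq_zero.mp ((mul_eq_zero.mp h').resolve_right hx)
  apply left_ne_zero_of_mul hM
  have g2 := congrArg (eval (pt M)) hc'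
  rw [map_mul, eval_C, eval_fslice, eval_fslice, hcc] at g2
  rw [map_sub, map_mul, eval_C, g2, sub_self]

/-- **Invariants of bilinear forms.** -/
theorem bilinear {P Q : Pl (n * n)} (hn : 14 ≤ n) (hQ : Q ≠ 0) (hinv : CongInv P Q) {q L : ℕ}
    (h10 : 10 * q ≤ n) (hL : SLPComputes (xv (m := n * n)) L {rat P Q}) :
    (∃ c : ℂ, P = C c * Q) ∨ HasRank q (16 * L) := by
  have e : Fin n ≃ Bx (n / 2) (n % 2) := Fintype.equivOfCardEq (by
    simp only [Fintype.card_fin, Fintype.card_sum]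
    omega)
  exact forms e (by omega) (by omega) hQ hinv (by omega) hL

end Pool.Agent.X237.PI
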