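import Pool.Agent.X237.PI.Spec
import Pool.Agent.X237.PI.Const

/-!
# Invariants of pairs of matrices
-/

set_option autoImplicit false

namespace Pool.Agent.X237.PI

open MvPolynomial Pool.Agent.H515R2.MMR Pool.Agent.H53R3 Pool.Agent.X237.IV

variable {n : ℕ}

/-- The point with the entries of the two matrices `M 0`, `M 1` as coordinates. -/
def pr (M : Fin 2 → Mt n) : Fin (2 * (n * n)) → ℂ :=
  fun t => pt (M (finProdFinEquiv.symm t).1) (finProdFinEquiv.symm t).2

/-- The rational function `P / Q` of a pair of matrices is invariant under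
`(A, B) ↦ (g A h, g B h)`. -/
def PencilInv (P Q : Pl (2 * (n * n))) : Prop :=
  ∀ (g h : (Mt n)ˣ) (A B : Mt n),
    eval (pr ![(g : Mt n) * A * (h : Mt n), (g : Mt n) * B * (h : Mt n)]) P *
        eval (pr ![A, B]) Q =
      eval (pr ![A, B]) P *
        eval (pr ![(g : Mt n) * A * (h : Mt n), (g : Mt n) * B * (h : Mt n)]) Q

theorem pr_surj (a : Fin (2 * (n * n)) → ℂ) :
    pr (fun u => toM fun s => a (finProdFinEquiv (u, s))) = a := by
  funext t
  show pt (toM fun s => a (finProdFinEquiv ((finProdFinEquiv.symm t).1, s)))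
    (finProdFinEquiv.symm t).2 = a t
  rw [pt_toM]
  simp only [Prod.mk.eta, Equiv.apply_symm_apply]

/-- The affine subspaces of pairs with one entry `A` and the other entry `A X`. -/
noncomputable def slice (A : Mt n) (e : Fin 2) : Fin (2 * (n * n)) → Pl (n * n) := fun t =>
  if (finProdFinEquiv.symm t).1 = e then
    C (A (finProdFinEquiv.symm (finProdFinEquiv.symm t).2).1
      (finProdFinEquiv.symm (finProdFinEquiv.symm t).2).2)
  else ∑ k, C (A (finProdFinEquiv.symm (finProdFinEquiv.symm t).2).1 k) *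
    X (finProdFinEquiv (k, (finProdFinEquiv.symm (finProdFinEquiv.symm t).2).2))

theorem eval_slice (A : Mt n) (e : Fin 2) (P : Pl (2 * (n * n))) (M : Mt n) :
    eval (pt M) (aeval (slice A e) P) = eval (pr fun u => if u = e then A else A * M) P := by
  have h : (eval (pt M)).comp (aeval (slice A e) : Pl (2 * (n * n)) →ₐ[ℂ] Pl (n * n)).toRingHom =
      eval (pr fun u => if u = e then A else A * M) := by
    refine MvPolynomial.ringHom_ext ?_ ?_
    · intro c
      simp
    · intro t
      show eval (pt M) (aeval (slice A e) (X t)) = _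
      rw [aeval_X, eval_X, slice, pr]
      by_cases hu : (finProdFinEquiv.symm t).1 = e
      · rw [if_pos hu, if_pos hu, eval_C]
        rfl
      · rw [if_neg hu, if_neg hu, map_sum]
        show _ = (A * M) _ _
        rw [Matrix.mul_apply]
        refine Finset.sum_congr rfl fun k _ => ?_
        rw [map_mul, eval_C, eval_X, IV.pt, Equiv.symm_apply_apply]
  exact congrArg (fun f => f P) h

theorem slice_affine (A : Mt n) (e : Fin 2) (t : Fin (2 * (n * n))) :
    slice A e t ∈ Submodule.span ℂ ({1} ∪ Set.range (X : Fin (n * n) → Pl (n * n))) := by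
  unfold slice
  split_ifs
  · rw [show ∀ a : ℂ, (C a : Pl (n * n)) = a • 1 from fun a => by
      rw [Algebra.smul_def, mul_one]; rfl]
    exact Submodule.smul_mem _ _ (Submodule.subset_span (Or.inl rfl))
  · refine Submodule.sum_mem _ fun k _ => ?_
    rw [show ∀ (a : ℂ) (p : Pl (n * n)), C a * p = a • p from fun a p => by
      rw [Algebra.smul_def]; rfl]
    exact Submodule.smul_mem _ _ (Submodule.subset_span (Or.inr ⟨_, rfl⟩))

/-- The determinant of one of the two matrices. -/
noncomputable def dpoly (n : ℕ) (u : Fin 2) : Pl (2 * (n * n)) :=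
  (Matrix.of fun i j : Fin n =>
    (X (finProdFinEquiv (u, finProdFinEquiv (i, j))) : Pl (2 * (n * n)))).det

theorem eval_dpoly (u : Fin 2) (M : Fin 2 → Mt n) : eval (pr M) (dpoly n u) = (M u).det := by
  rw [dpoly, RingHom.map_det]
  congr 1
  ext i j
  simp only [RingHom.mapMatrix_apply, Matrix.map_apply, Matrix.of_apply, eval_X, pr, IV.pt,
    Equiv.symm_apply_apply]

theorem dpoly_ne (u : Fin 2) : dpoly n u ≠ 0 := by
  intro h0
  have := eval_dpoly u (fun _ => (1 : Mt n))
  rw [h0, map_zero, Matrix.det_one] at this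
  exact zero_ne_one this

/-- The restriction of an invariant to a slice is invariant under conjugation. -/
theorem conjInv_slice {P Q : Pl (2 * (n * n))} (hinv : PencilInv P Q) {A A' : Mt n}
    (hA : A * A' = 1) (hA' : A' * A = 1) (e : Fin 2) :
    ConjInv (aeval (slice A e) P) (aeval (slice A e) Q) := by
  intro g M
  rw [eval_slice, eval_slice, eval_slice, eval_slice]
  let G : (Mt n)ˣ := (⟨A, A', hA, hA'⟩ : (Mt n)ˣ) * g * (⟨A', A, hA', hA⟩ : (Mt n)ˣ)
  have e1 : (G : Mt n) * A * (g⁻¹ : (Mt n)ˣ) = A := by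
    show A * g * A' * A * (g⁻¹ : (Mt n)ˣ) = A
    rw [mul_assoc (A * (g : Mt n)), hA', mul_one, mul_assoc, Units.mul_inv, mul_one]
  have e2 : (G : Mt n) * (A * M) * (g⁻¹ : (Mt n)ˣ) = A * (g * M * (g⁻¹ : (Mt n)ˣ)) := by
    show A * g * A' * (A * M) * (g⁻¹ : (Mt n)ˣ) = _
    have : A * g * A' * (A * M) * (g⁻¹ : (Mt n)ˣ) = A * g * (A' * A) * M * (g⁻¹ : (Mt n)ˣ) := by
      simp only [mul_assoc]
    rw [this, hA', mul_one]
    simp only [mul_assoc]
  have h := hinv G g⁻¹ (if (0 : Fin 2) = e then A else A * M) (if (1 : Fin 2) = e then A else A * M)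
  have f1 : (![if (0 : Fin 2) = e then A else A * M, if (1 : Fin 2) = e then A else A * M] :
      Fin 2 → Mt n) = fun u => if u = e then A else A * M := by
    funext u
    fin_cases u <;> rfl
  have f2 : (![(G : Mt n) * (if (0 : Fin 2) = e then A else A * M) * (g⁻¹ : (Mt n)ˣ),
      (G : Mt n) * (if (1 : Fin 2) = e then A else A * M) * (g⁻¹ : (Mt n)ˣ)] :
      Fin 2 → Mt n) = fun u => if u = e then A else A * (g * M * (g⁻¹ : (Mt n)ˣ)) := by
    funext u
    fin_cases e <;> fin_cases u
    · exact e1
    · exact e2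
    · exact e2
    · exact e1
  rw [f1, f2] at h
  exact h

/-- The two slices are related by inversion. -/
theorem slice_inv {P Q : Pl (2 * (n * n))} (hinv : PencilInv P Q) {A A' B B' : Mt n}
    (hA : A * A' = 1) (hA' : A' * A = 1) (hB : B * B' = 1) (hB' : B' * B = 1) {M N : Mt n}
    (hMN : M * N = 1) :
    eval (pt M) (aeval (slice A 0) P) * eval (pt N) (aeval (slice B 1) Q) =
      eval (pt N) (aeval (slice B 1) P) * eval (pt M) (aeval (slice A 0) Q) := by
  have hNM : N * M = 1 := mul_eq_one_comm.mp hMN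
  rw [eval_slice, eval_slice, eval_slice, eval_slice]
  let G : (Mt n)ˣ := (⟨B, B', hB, hB'⟩ : (Mt n)ˣ) * (⟨A', A, hA', hA⟩ : (Mt n)ˣ)
  let H : (Mt n)ˣ := ⟨N, M, hNM, hMN⟩
  have e1 : (G : Mt n) * A * H = B * N := by
    show B * A' * A * N = B * N
    rw [mul_assoc B, hA', mul_one]
  have e2 : (G : Mt n) * (A * M) * H = B := by
    show B * A' * (A * M) * N = B
    have : B * A' * (A * M) * N = B * (A' * A) * (M * N) := by simp only [mul_assoc]
    rw [this, hA', hMN, mul_one, mul_one]
  have h := hinv G H A (A * M)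
  rw [e1, e2] at h
  have f1 : (![A, A * M] : Fin 2 → Mt n) = fun u => if u = 0 then A else A * M := by
    funext u
    fin_cases u <;> rfl
  have f2 : (![B * N, B] : Fin 2 → Mt n) = fun u => if u = 1 then B else B * N := by
    funext u
    fin_cases u <;> rfl
  rw [f1, f2] at h
  exact h.symm

/-- **Invariants of pairs of matrices.** -/
theorem pencil {P Q : Pl (2 * (n * n))} (hn : 7 ≤ n) (hQ : Q ≠ 0) (hinv : PencilInv P Q)
    {q L : ℕ} (h5 : 5 * q ≤ n) (hL : SLPComputes (xv (m := 2 * (n * n))) L {rat P Q}) :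
    (∃ c : ℂ, P = C c * Q) ∨ HasRank q (16 * L) := by
  classical
  by_cases hr : HasRank q (16 * L)
  · exact Or.inr hr
  left
  have hset : ∀ (m : ℕ) (a : RF m), ({f | ∃ _ : Unit, f = a} : Set (RF m)) = {a} := by
    intro m a
    ext f
    simp
  have hL' : SLPComputes (xv (m := 2 * (n * n))) L {f | ∃ _ : Unit, f = rat P Q} := by
    rw [hset]
    exact hL
  obtain ⟨d, hd0, hd⟩ := slp_spec (P := fun _ : Unit => P) hQ hL'
  set R : Pl (2 * (n * n)) := d * dpoly n 0 * dpoly n 1 with hR
  have hR0 : R ≠ 0 := mul_ne_zero (mul_ne_zero hd0 (dpoly_ne 0)) (dpoly_ne 1)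
  -- the restriction to a good slice is constant
  have hgood : ∀ M : Fin 2 → Mt n, eval (pr M) R ≠ 0 → ∃ c : ℂ,
      aeval (slice (M 0) 0) P = C c * aeval (slice (M 0) 0) Q ∧ aeval (slice (M 0) 0) Q ≠ 0 ∧
      IsUnit (M 0) := by
    intro M hM
    rw [hR, map_mul, map_mul, eval_dpoly, eval_dpoly] at hM
    have hA : IsUnit (M 0) := (Matrix.isUnit_iff_isUnit_det _).mpr (isUnit_iff_ne_zero.mpr
      (right_ne_zero_of_mul (left_ne_zero_of_mul hM)))
    have hB : IsUnit (M 1) := (Matrix.isUnit_iff_isUnit_det _).mpr (isUnit_iff_ne_zero.mpr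
      (right_ne_zero_of_mul hM))
    have hdM : eval (pr M) d ≠ 0 := left_ne_zero_of_mul (left_ne_zero_of_mul hM)
    obtain ⟨⟨A, A', hAA', hA'A⟩, hA⟩ := hA
    obtain ⟨⟨B, B', hBB', hB'B⟩, hB⟩ := hB
    simp only [] at hA hB
    rw [← hA]
    have f1 : (fun u : Fin 2 => if u = 0 then A else A * (A' * B)) = M := by
      funext u
      fin_cases u
      · exact hA
      · show A * (A' * B) = M 1
        rw [← mul_assoc, hAA', one_mul, hB]
    have f2 : (fun u : Fin 2 => if u = 1 then B else B * (B' * A)) = M := by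
      funext u
      fin_cases u
      · show B * (B' * A) = M 0
        rw [← mul_assoc, hBB', one_mul, hA]
      · exact hB
    have d1 : aeval (slice A 0) d ≠ 0 := by
      intro h0
      apply hdM
      rw [← f1, ← eval_slice, h0, map_zero]
    have d2 : aeval (slice B 1) d ≠ 0 := by
      intro h0
      apply hdM
      rw [← f2, ← eval_slice, h0, map_zero]
    obtain ⟨q1, L1⟩ := hd (n * n) (slice A 0) (slice_affine A 0) d1
    obtain ⟨q2, L2⟩ := hd (n * n) (slice B 1) (slice_affine B 1) d2
    rw [hset] at L1 L2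
    have o1 := (dichotomy hn q1 (conjInv_slice hinv hAA' hA'A 0) h5 L1).resolve_right hr
    have o2 := (dichotomy hn q2 (conjInv_slice hinv hBB' hB'B 1) h5 L2).resolve_right hr
    obtain ⟨c, hc⟩ := const_of_inv (by omega) q1 q2 o1 o2
      (fun M N hMN => slice_inv hinv hAA' hA'A hBB' hB'B hMN)
    exact ⟨c, hc, q1, ⟨⟨A, A', hAA', hA'A⟩, rfl⟩⟩
  have hex : ∃ M : Fin 2 → Mt n, eval (pr M) R ≠ 0 := by
    by_contra hcon
    push Not at hcon
    apply hR0
    apply MvPolynomial.funext
    intro a
    rw [← pr_surj a, hcon, map_zero]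
  obtain ⟨M₀, hM₀⟩ := hex
  obtain ⟨c, hc, hq, ⟨⟨A, A', hAA', hA'A⟩, hA⟩⟩ := hgood M₀ hM₀
  simp only [] at hA
  rw [← hA] at hc hq
  refine ⟨c, ?_⟩
  have h0 : (P - C c * Q) * R = 0 := by
    apply MvPolynomial.funext
    intro a
    rw [← pr_surj a]
    set M : Fin 2 → Mt n := fun u => toM fun s => a (finProdFinEquiv (u, s)) with hM
    rw [map_zero, map_mul]
    by_cases hRM : eval (pr M) R = 0
    · rw [hRM, mul_zero]
    · obtain ⟨c', hc', hq', ⟨⟨B, B', hBB', hB'B⟩, hB⟩⟩ := hgood M hRM
      simp only [] at hB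
      rw [← hB] at hc' hq'
      -- the two constants agree
      have hcc : c' = c := by
        obtain ⟨x, hx⟩ : ∃ x : Fin (n * n) → ℂ,
            eval x (aeval (slice A 0) Q * aeval (slice B 0) Q) ≠ 0 := by
          by_contra hcon
          push Not at hcon
          exact mul_ne_zero hq hq' (MvPolynomial.funext fun a => by rw [hcon a, map_zero])
        rw [← pt_toM x, map_mul] at hx
        have g1 := congrArg (eval (pt (toM x))) hc
        have g2 := congrArg (eval (pt (toM x))) hc'
        rw [map_mul, eval_C, eval_slice, eval_slice] at g1 g2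
        rw [eval_slice, eval_slice] at hx
        let G : (Mt n)ˣ := (⟨B, B', hBB', hB'B⟩ : (Mt n)ˣ) * (⟨A', A, hA'A, hAA'⟩ : (Mt n)ˣ)
        have e1 : (G : Mt n) * A * ((1 : (Mt n)ˣ) : Mt n) = B := by
          show B * A' * A * 1 = B
          rw [mul_assoc B, hA'A, mul_one, mul_one]
        have e2 : (G : Mt n) * (A * toM x) * ((1 : (Mt n)ˣ) : Mt n) = B * toM x := by
          show B * A' * (A * toM x) * 1 = B * toM x
          rw [mul_one]
          have : B * A' * (A * toM x) = B * (A' * A) * toM x := by simp only [mul_assoc]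
          rw [this, hA'A, mul_one]
        have h := hinv G 1 A (A * toM x)
        rw [e1, e2] at h
        have f1 : (![A, A * toM x] : Fin 2 → Mt n) = fun u => if u = 0 then A else A * toM x := by
          funext u
          fin_cases u <;> rfl
        have f2 : (![B, B * toM x] : Fin 2 → Mt n) = fun u => if u = 0 then B else B * toM x := by
          funext u
          fin_cases u <;> rfl
        rw [f1, f2, g1, g2] at h
        have h' : (c' - c) * (eval (pr fun u => if u = 0 then A else A * toM x) Q *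
            eval (pr fun u => if u = 0 then B else B * toM x) Q) = 0 := by
          linear_combination h
        exact sub_eq_zero.mp ((mul_eq_zero.mp h').resolve_right hx)
      have g2 := congrArg (eval (pt (B' * M 1))) hc'
      rw [map_mul, eval_C, eval_slice, eval_slice] at g2
      have f1 : (fun u : Fin 2 => if u = 0 then B else B * (B' * M 1)) = M := by
        funext u
        fin_cases u
        · exact hB
        · show B * (B' * M 1) = M 1
          rw [← mul_assoc, hBB', one_mul]
      rw [f1, hcc] at g2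
      rw [map_sub, map_mul, eval_C, g2, sub_self, zero_mul]
  exact sub_eq_zero.mp ((mul_eq_zero.mp h0).resolve_right hR0)

end Pool.Agent.X237.PI
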