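import Pool.Agent.X237.EQ.Coef

/-!
# Specialisation of straight-line programs
-/

set_option autoImplicit false

namespace Pool.Agent.X237.PI

open MvPolynomial Pool.Agent.H515R2.MMR Pool.Agent.H53R3 Pool.Agent.X237.IV Pool.Agent.X237.EQ

section transfer

variable {K K' A : Type*} [Field K] [Algebra ℂ K] [Field K'] [Algebra ℂ K'] [CommRing A]
  [Algebra ℂ A] {N M : ℕ}

/-- Affine combinations of the steps of a program lift to a common ring and map to affine
combinations. -/
theorem affS_transfer (i : A →ₐ[ℂ] K) (r : A →ₐ[ℂ] K') {x : Fin N → K} {y : Fin M → K'}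
    (x' : Fin N → A) (hx : ∀ t, i (x' t) = x t)
    (hx' : ∀ t, r (x' t) ∈ Submodule.span ℂ ({1} ∪ Set.range y)) {L : ℕ} {g : ℕ → K}
    (gt : ℕ → A) (hgt : ∀ l < L, i (gt l) = g l) {l : ℕ} (hl : l ≤ L) {z : K}
    (hz : z ∈ affS x g l) : ∃ z' : A, i z' = z ∧ r z' ∈ affS y (fun k => r (gt k)) l := by
  unfold affS at hz
  induction hz using Submodule.span_induction with
  | mem z hz =>
    rcases hz with (hz | hz) | hz
    · rw [Set.mem_singleton_iff.mp hz]
      exact ⟨1, map_one _, by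
        rw [map_one]
        exact Submodule.subset_span (Or.inl (Or.inl rfl))⟩
    · obtain ⟨t, rfl⟩ := hz
      refine ⟨x' t, hx t, ?_⟩
      exact Submodule.span_mono (Set.subset_union_left) (hx' t)
    · obtain ⟨k, hk, rfl⟩ := hz
      have hk' : k < l := hk
      exact ⟨gt k, hgt k (by omega), Submodule.subset_span (Or.inr ⟨k, hk, rfl⟩)⟩
  | zero => exact ⟨0, map_zero _, by rw [map_zero]; exact Submodule.zero_mem _⟩
  | add a b _ _ ha hb =>
    obtain ⟨a', ha1, ha2⟩ := ha
    obtain ⟨b', hb1, hb2⟩ := hb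
    exact ⟨a' + b', by rw [map_add, ha1, hb1], by rw [map_add]; exact Submodule.add_mem _ ha2 hb2⟩
  | smul c a _ ha =>
    obtain ⟨a', ha1, ha2⟩ := ha
    exact ⟨c • a', by rw [map_smul, ha1], by rw [map_smul]; exact Submodule.smul_mem _ _ ha2⟩

/-- Programs can be transferred through a common ring. -/
theorem slp_transfer (i : A →ₐ[ℂ] K) (r : A →ₐ[ℂ] K') (hi : Function.Injective i)
    {x : Fin N → K} {y : Fin M → K'}
    (x' : Fin N → A) (hx : ∀ t, i (x' t) = x t)
    (hx' : ∀ t, r (x' t) ∈ Submodule.span ℂ ({1} ∪ Set.range y)) {L : ℕ} {g : ℕ → K}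
    (u v : ℕ → K) (huv : ∀ l < L, u l ∈ affS x g l ∧ v l ∈ affS x g l ∧
      (g l = u l * v l ∨ (v l ≠ 0 ∧ g l = u l / v l)))
    (hg : ∀ l < L, ∃ z, i z = g l) (hv : ∀ l < L, ∃ z, i z = (v l)⁻¹) {F : Set K} {F' : Set K'}
    (hF : ∀ f ∈ F, f ∈ affS x g L) (hF' : ∀ f' ∈ F', ∃ f ∈ F, ∀ z, i z = f → r z = f') :
    SLPComputes y L F' := by
  have hgt : ∀ l, ∃ z' : A, l < L → i z' = g l := by
    intro l
    by_cases hl : l < L
    · obtain ⟨z', hz'⟩ := hg l hl
      exact ⟨z', fun _ => hz'⟩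
    · exact ⟨0, fun h => absurd h hl⟩
  choose gt hgt using hgt
  refine ⟨fun k => r (gt k), ?_, ?_⟩
  · intro l hl
    obtain ⟨hu, hv', h⟩ := huv l hl
    obtain ⟨u', hu1, hu2⟩ := affS_transfer i r x' hx hx' gt hgt hl.le hu
    obtain ⟨v', hv1, hv2⟩ := affS_transfer i r x' hx hx' gt hgt hl.le hv'
    refine ⟨_, hu2, _, hv2, ?_⟩
    rcases h with h | ⟨hv0, h⟩
    · left
      show r (gt l) = r u' * r v'
      have e : gt l = u' * v' := hi (by rw [map_mul, hu1, hv1, hgt l hl, h])
      rw [e, map_mul]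
    · right
      obtain ⟨w, hw⟩ := hv l hl
      have h1 : w * v' = 1 := hi (by rw [map_mul, map_one, hw, hv1, inv_mul_cancel₀ hv0])
      have h2 : r v' ≠ 0 := by
        intro h0
        have := congrArg r h1
        rw [map_mul, h0, mul_zero, map_one] at this
        exact zero_ne_one this
      refine ⟨h2, ?_⟩
      show r (gt l) = r u' / r v'
      have e : gt l * v' = u' := hi (by
        rw [map_mul, hu1, hv1, hgt l hl, h, div_mul_cancel₀ _ hv0])
      rw [eq_div_iff h2, ← map_mul, e]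
  · intro f' hf'
    obtain ⟨f, hf, hff⟩ := hF' f' hf'
    obtain ⟨z', hz1, hz2⟩ := affS_transfer i r x' hx hx' gt hgt le_rfl (hF f hf)
    rw [← hff z' hz1]
    exact hz2

end transfer

section loc

variable {N : ℕ}

/-- The evaluation of fractions. -/
theorem exists_lift {M : ℕ} (d : Pl N) (hd0 : d ≠ 0) (σ : Fin N → Pl M) (hdσ : aeval σ d ≠ 0) :
    ∃ (A : Type) (_ : CommRing A) (_ : Algebra ℂ A) (j : Pl N →ₐ[ℂ] A) (i : A →ₐ[ℂ] RF N)
      (r : A →ₐ[ℂ] RF M), Function.Injective i ∧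
      (∀ p, i (j p) = algebraMap (Pl N) (RF N) p) ∧
      (∀ p, r (j p) = algebraMap (Pl M) (RF M) (aeval σ p)) ∧
      (∀ z : RF N, ∀ p : Pl N, algebraMap (Pl N) (RF N) p = algebraMap (Pl N) (RF N) d * z →
        ∃ z', i z' = z) := by
  classical
  have hinjK : Function.Injective (algebraMap (Pl N) (RF N)) := IsFractionRing.injective _ _
  have hinjM : Function.Injective (algebraMap (Pl M) (RF M)) := IsFractionRing.injective _ _
  have hdK : IsUnit (algebraMap (Pl N) (RF N) d) := by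
    rw [isUnit_iff_ne_zero]
    intro h0
    exact hd0 (hinjK (by rw [h0, map_zero]))
  have hdM : IsUnit ((algebraMap (Pl M) (RF M)).comp (aeval σ : Pl N →ₐ[ℂ] Pl M).toRingHom d) := by
    rw [isUnit_iff_ne_zero]
    intro h0
    apply hdσ
    apply hinjM
    rw [map_zero]
    exact h0
  obtain ⟨ιr, hι⟩ : ∃ ιr : Localization.Away d →+* RF N, ∀ p : Pl N,
      ιr (algebraMap (Pl N) (Localization.Away d) p) = algebraMap (Pl N) (RF N) p :=
    ⟨IsLocalization.Away.lift d hdK, fun p => IsLocalization.Away.lift_eq d hdK p⟩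
  obtain ⟨ρr, hρ⟩ : ∃ ρr : Localization.Away d →+* RF M, ∀ p : Pl N,
      ρr (algebraMap (Pl N) (Localization.Away d) p) =
        algebraMap (Pl M) (RF M) (aeval σ p) :=
    ⟨IsLocalization.Away.lift d hdM, fun p => IsLocalization.Away.lift_eq d hdM p⟩
  have hιinj : Function.Injective ιr := by
    rw [injective_iff_map_eq_zero]
    intro z hz
    obtain ⟨⟨p, s⟩, hps⟩ := IsLocalization.surj (Submonoid.powers d) z
    have h1 : ιr z * ιr (algebraMap (Pl N) (Localization.Away d) s) =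
        ιr (algebraMap (Pl N) (Localization.Away d) p) := by
      rw [← map_mul, hps]
    rw [hz, zero_mul, hι] at h1
    have hp : p = 0 := hinjK (by rw [← h1, map_zero])
    rw [hp, map_zero] at hps
    have hs : IsUnit (algebraMap (Pl N) (Localization.Away d) s) :=
      IsLocalization.map_units (Localization.Away d) s
    exact (IsUnit.mul_left_eq_zero hs).mp hps
  have hC : ∀ c : ℂ, algebraMap ℂ (Localization.Away d) c =
      algebraMap (Pl N) (Localization.Away d) (C c) := fun c => by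
    rw [IsScalarTower.algebraMap_apply ℂ (Pl N) (Localization.Away d)]
    rfl
  have hCN : ∀ c : ℂ, algebraMap ℂ (RF N) c = algebraMap (Pl N) (RF N) (C c) := fun c => by
    rw [IsScalarTower.algebraMap_apply ℂ (Pl N) (RF N)]
    rfl
  have hCM : ∀ c : ℂ, algebraMap ℂ (RF M) c = algebraMap (Pl M) (RF M) (C c) := fun c => by
    rw [IsScalarTower.algebraMap_apply ℂ (Pl M) (RF M)]
    rfl
  refine ⟨Localization.Away d, inferInstance, inferInstance,
    { toRingHom := algebraMap (Pl N) (Localization.Away d), commutes' := fun c => (hC c).symm },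
    { toRingHom := ιr, commutes' := fun c => ?_ },
    { toRingHom := ρr, commutes' := fun c => ?_ }, hιinj, hι, hρ, ?_⟩
  · show ιr (algebraMap ℂ (Localization.Away d) c) = _
    rw [hC, hι, hCN]
  · show ρr (algebraMap ℂ (Localization.Away d) c) = _
    rw [hC, hρ, hCM, aeval_C]
    rfl
  · intro z p hp
    refine ⟨IsLocalization.mk' (Localization.Away d) p
      (⟨d, Submonoid.mem_powers d⟩ : Submonoid.powers d), ?_⟩
    have h1 := IsLocalization.mk'_spec (Localization.Away d) p
      (⟨d, Submonoid.mem_powers d⟩ : Submonoid.powers d)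
    have h2 := congrArg ιr h1
    rw [map_mul, hι, hι, hp] at h2
    have h3 : algebraMap (Pl N) (RF N) d ≠ 0 := hdK.ne_zero
    exact mul_right_cancel₀ h3 (by
      show ιr _ * _ = _
      rw [h2]; ring)

end loc

/-- Programs can be specialised to affine subspaces in general position. -/
theorem slp_spec {N : ℕ} {ι : Type*} {P : ι → Pl N} {Q : Pl N} (hQ : Q ≠ 0) {L : ℕ}
    (hL : SLPComputes (xv (m := N)) L {f | ∃ i, f = rat (P i) Q}) :
    ∃ d : Pl N, d ≠ 0 ∧ ∀ (M : ℕ) (σ : Fin N → Pl M),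
      (∀ t, σ t ∈ Submodule.span ℂ ({1} ∪ Set.range (X : Fin M → Pl M))) → aeval σ d ≠ 0 →
      aeval σ Q ≠ 0 ∧
      SLPComputes (xv (m := M)) L {f | ∃ i, f = rat (aeval σ (P i)) (aeval σ Q)} := by
  classical
  obtain ⟨g, hg, hf⟩ := hL
  have hex : ∀ l, ∃ u v : RF N, l < L → u ∈ affS xv g l ∧ v ∈ affS xv g l ∧
      (g l = u * v ∨ (v ≠ 0 ∧ g l = u / v)) := by
    intro l
    by_cases hl : l < L
    · obtain ⟨u, hu, v, hv, h⟩ := hg l hl
      exact ⟨u, v, fun _ => ⟨hu, hv, h⟩⟩
    · exact ⟨0, 0, fun h => absurd h hl⟩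
  choose u v huv using hex
  obtain ⟨d, hd0, hd⟩ := exists_denominator
    ((Finset.range L).image g ∪ (Finset.range L).image (fun l => (v l)⁻¹))
  refine ⟨d * Q, mul_ne_zero hd0 hQ, fun M σ hσ hdσ => ?_⟩
  rw [map_mul] at hdσ
  have hdσ1 : aeval σ d ≠ 0 := left_ne_zero_of_mul hdσ
  have hQσ : aeval σ Q ≠ 0 := right_ne_zero_of_mul hdσ
  refine ⟨hQσ, ?_⟩
  obtain ⟨A, iA, iB, j, i, r, hi, hij, hrj, hlift⟩ := exists_lift d hd0 σ hdσ1
  refine slp_transfer i r hi (fun t => j (X t)) (fun t => hij _) ?_ u v (fun l hl => huv l hl)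
    ?_ ?_ hf ?_
  · intro t
    rw [hrj, aeval_X]
    have h1 := hσ t
    generalize σ t = w' at h1 ⊢
    induction h1 using Submodule.span_induction with
    | mem w hw =>
      rcases hw with hw | hw
      · rw [Set.mem_singleton_iff.mp hw, map_one]
        exact Submodule.subset_span (Or.inl rfl)
      · obtain ⟨s, rfl⟩ := hw
        exact Submodule.subset_span (Or.inr ⟨s, rfl⟩)
    | zero => rw [map_zero]; exact Submodule.zero_mem _
    | add a b _ _ ha hb => rw [map_add]; exact Submodule.add_mem _ ha hb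
    | smul c a _ ha =>
      have e : algebraMap (Pl M) (RF M) (c • a) = c • algebraMap (Pl M) (RF M) a := by
        rw [Algebra.smul_def, Algebra.smul_def, map_mul,
          ← IsScalarTower.algebraMap_apply ℂ (Pl M) (RF M)]
      rw [e]
      exact Submodule.smul_mem _ _ ha
  · intro l hl
    obtain ⟨p, hp⟩ := hd (g l) (Finset.mem_union_left _
      (Finset.mem_image.mpr ⟨l, Finset.mem_range.mpr hl, rfl⟩))
    exact hlift _ p hp
  · intro l hl
    obtain ⟨p, hp⟩ := hd ((v l)⁻¹) (Finset.mem_union_right _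
      (Finset.mem_image.mpr ⟨l, Finset.mem_range.mpr hl, rfl⟩))
    exact hlift _ p hp
  · rintro _ ⟨k, rfl⟩
    refine ⟨rat (P k) Q, ⟨k, rfl⟩, fun z hz => ?_⟩
    have h1 : z * j Q = j (P k) := by
      apply hi
      rw [map_mul, hz, hij, hij]
      unfold rat
      exact div_mul_cancel₀ _ (aQ_ne hQ)
    have h2 := congrArg r h1
    rw [map_mul, hrj, hrj] at h2
    unfold rat
    rw [eq_div_iff (aQ_ne hQσ), h2]

end Pool.Agent.X237.PI
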