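import Mathlib

/-!
# Prescribed power sums of numbers and of their inverses
-/

set_option autoImplicit false

namespace Pool.Agent.X237.PI

/-- Two numbers with given sum and product. -/
theorem exists_two (s p : ℂ) : ∃ u v : ℂ, u + v = s ∧ u * v = p := by
  obtain ⟨w, hw⟩ := IsAlgClosed.exists_eq_mul_self (s ^ 2 - 4 * p)
  refine ⟨(s + w) / 2, (s - w) / 2, by ring, ?_⟩
  linear_combination (1 / 4 : ℂ) * hw

/-- Three nonzero numbers with given sum, sum of squares, sum of inverses and sum of squares of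
inverses, in one family. -/
theorem exists_three (a b : ℂ) : ∃ x y z : ℂ, x ≠ 0 ∧ y ≠ 0 ∧ z ≠ 0 ∧ x + y + z = a ∧
    x ^ 2 + y ^ 2 + z ^ 2 = a ^ 2 - 2 * b ∧ x⁻¹ + y⁻¹ + z⁻¹ = b ∧
    x⁻¹ ^ 2 + y⁻¹ ^ 2 + z⁻¹ ^ 2 = b ^ 2 - 2 * a := by
  obtain ⟨x, hx⟩ : ∃ x : ℂ, x ^ 3 - a * x ^ 2 + b * x - 1 = 0 := by
    have hd : (Polynomial.X ^ 3 - Polynomial.C a * Polynomial.X ^ 2 + Polynomial.C b *
        Polynomial.X - 1 : Polynomial ℂ).natDegree = 3 := by
      compute_degree!
    obtain ⟨x, hx⟩ := IsAlgClosed.exists_root (Polynomial.X ^ 3 - Polynomial.C a *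
      Polynomial.X ^ 2 + Polynomial.C b * Polynomial.X - 1 : Polynomial ℂ) (by
        intro h0
        have := Polynomial.natDegree_eq_zero_iff_degree_le_zero.mpr h0.le
        omega)
    refine ⟨x, ?_⟩
    simpa [Polynomial.IsRoot] using hx
  have hx0 : x ≠ 0 := by
    rintro rfl
    norm_num at hx
  obtain ⟨y, z, h1, h2⟩ := exists_two (a - x) x⁻¹
  have hyz : y * z ≠ 0 := by rw [h2]; exact inv_ne_zero hx0
  have hy : y ≠ 0 := left_ne_zero_of_mul hyz
  have hz : z ≠ 0 := right_ne_zero_of_mul hyz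
  have e3 : x * y * z = 1 := by rw [mul_assoc, h2, mul_inv_cancel₀ hx0]
  have e1 : x + y + z = a := by rw [add_assoc, h1]; ring
  have e2 : x * y + x * z + y * z = b := by
    have : x * (x * y + x * z + y * z - b) = 0 := by
      linear_combination (-1 : ℂ) * hx + x ^ 2 * e1 + e3
    have := (mul_eq_zero.mp this).resolve_left hx0
    linear_combination this
  have i1 : x⁻¹ = y * z := by rw [h2]
  have i2 : y⁻¹ = x * z := by
    rw [inv_eq_iff_eq_inv, eq_comm, inv_eq_iff_eq_inv]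
    field_simp
    linear_combination e3
  have i3 : z⁻¹ = x * y := by
    rw [inv_eq_iff_eq_inv, eq_comm, inv_eq_iff_eq_inv]
    field_simp
    linear_combination e3
  refine ⟨x, y, z, hx0, hy, hz, e1, ?_, ?_, ?_⟩
  · linear_combination (x + y + z + a) * e1 - 2 * e2
  · rw [i1, i2, i3]; linear_combination e2
  · rw [i1, i2, i3]
    linear_combination (x * y + x * z + y * z + b) * e2 - 2 * (x + y + z) * e3 - 2 * e1

/-- Nonzero numbers with prescribed sum, sum of squares, sum of the inverses and sum of the squares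
of the inverses. -/
theorem exists_sums {n : ℕ} (hn : 6 ≤ n) (s₁ s₂ t₁ t₂ : ℂ) : ∃ x : Fin n → ℂ, (∀ i, x i ≠ 0) ∧
    ∑ i, x i = s₁ ∧ ∑ i, x i ^ 2 = s₂ ∧ ∑ i, (x i)⁻¹ = t₁ ∧ ∑ i, (x i)⁻¹ ^ 2 = t₂ := by
  obtain ⟨m, rfl⟩ := Nat.exists_eq_add_of_le hn
  obtain ⟨a, a', ha1, ha2⟩ := exists_two (s₁ - m)
    (((s₁ - m) ^ 2 - (s₂ - m + 2 * (t₁ - m))) / 2)
  obtain ⟨b, b', hb1, hb2⟩ := exists_two (t₁ - m)
    (((t₁ - m) ^ 2 - (t₂ - m + 2 * (s₁ - m))) / 2)
  obtain ⟨x, y, z, hx, hy, hz, h1, h2, h3, h4⟩ := exists_three a b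
  obtain ⟨x', y', z', hx', hy', hz', h1', h2', h3', h4'⟩ := exists_three a' b'
  refine ⟨Fin.append ![x, y, z, x', y', z'] (fun _ => 1), ?_, ?_, ?_, ?_, ?_⟩
  · intro i
    refine Fin.addCases (fun j => ?_) (fun j => ?_) i
    · rw [Fin.append_left]
      fin_cases j <;> simpa
    · rw [Fin.append_right]
      exact one_ne_zero
  · rw [Fin.sum_univ_add]
    simp only [Fin.append_left, Fin.append_right, Fin.sum_univ_six, Finset.sum_const,
      Finset.card_univ, Fintype.card_fin, nsmul_eq_mul, mul_one]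
    simp only [Matrix.cons_val]
    linear_combination h1 + h1' + ha1
  · rw [Fin.sum_univ_add]
    simp only [Fin.append_left, Fin.append_right, Fin.sum_univ_six, Finset.sum_const,
      Finset.card_univ, Fintype.card_fin, nsmul_eq_mul, one_pow, mul_one]
    simp only [Matrix.cons_val]
    linear_combination h2 + h2' + (a + a' + (s₁ - m)) * ha1 - 2 * ha2 - 2 * hb1
  · rw [Fin.sum_univ_add]
    simp only [Fin.append_left, Fin.append_right, Fin.sum_univ_six, Finset.sum_const,
      Finset.card_univ, Fintype.card_fin, nsmul_eq_mul, mul_one, inv_one]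
    simp only [Matrix.cons_val]
    linear_combination h3 + h3' + hb1
  · rw [Fin.sum_univ_add]
    simp only [Fin.append_left, Fin.append_right, Fin.sum_univ_six, Finset.sum_const,
      Finset.card_univ, Fintype.card_fin, nsmul_eq_mul, one_pow, mul_one, inv_one]
    simp only [Matrix.cons_val]
    linear_combination h4 + h4' + (b + b' + (t₁ - m)) * hb1 - 2 * hb2 - 2 * ha1

end Pool.Agent.X237.PI
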